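import Pool.Agent.H559.IX.Pages
import Pool.Agent.H559.IX.Nth

set_option autoImplicit false

/-!
# Even numbers as sums of two iterated prime-indexed primes, in the random sieve model

For every prime `q` a residue class `a q` modulo `q` is drawn uniformly and independently. The random primes are the
integers `v ≥ 3` which are, for all primes `q ≤ z v`, not in the class `0` modulo `q` if `q ≤ (log v) ^ c`, and not in the
class `a q` modulo `q` if `q > (log v) ^ c`. This is the model of Banks, Ford and Tao (*Large prime gaps and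
probabilistic models*) in which the small primes sieve out the class `0` as they do for the true primes. The sieving
limit `z` is any nondecreasing function for which `∏_{q ≤ z v} (1 - 1 / q)` is asymptotic to `1 / log v`; the choice `zBFT`
of Banks, Ford and Tao is one of them. The exponent `c` is any number larger than `1`. `nthEl R m` is the `m`-th random
prime, and `iPrime R i x` is the `x`-th `i`-prime, `i + 1` applications of `nthEl R` to `x`.

The theorem: almost surely, for all `i, j ≥ 0` all large even numbers `2n` are sums of an `i`-prime and a different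
`j`-prime, and the `j`-prime can be taken at most `(log n) ^ C`, `C = C(i, j)`.

Membership in the set of the `i`-primes depends on the numbers of all random primes below certain bounds. The proof
avoids the distribution of these numbers: it shows, for all `x` at once, that in every window `(x, x + Λ ^ A]` the random
primes realize every admissible combination of a local condition and a relative index, with an exceptional probability
which is summable over `x` and over all sets of indices under consideration (here: given by the random primes in the windows at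
`N_0, N_1, …`, with arbitrary base points `N_k` for the iterated indices). This uses that the survivors of the large primes in a
window are exchangeable given the survivors of the small primes and the random primes in the auxiliary windows, and local lower
bounds for hypergeometric probabilities. The `i`-primes are treated by induction on `i`, at all scales `Λ ^ κ ≤ x ≤ exp Λ` at once.
-/

open MeasureTheory ProbabilityTheory Filter Topology

namespace Pool.Agent.Results.MP_778b46_nt.IteratedRandomPrimes

/-- `V m = ∏ (1 - 1 / q)` over the primes `q ≤ m` -/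
noncomputable def V (m : ℕ) : ℝ := ∏ q ∈ (Finset.range (m + 1)).filter Nat.Prime, (1 - 1 / (q : ℝ))

/-- the classes `a q` are independent, and `a q` is uniform on `0, …, q - 1` for every prime `q` -/
structure Model {Ω : Type} [MeasurableSpace Ω] (P : Measure Ω) (a : ℕ → Ω → ℕ) : Prop where
  measurable : ∀ q, Measurable (a q)
  independent : iIndepFun a P
  uniform : ∀ q, q.Prime → ∀ r < q, P.real {ω | a q ω = r} = 1 / q

/-- the sieving limit of Banks, Ford and Tao: the largest `m` with `∏_{q ≤ m} (1 - 1 / q)⁻¹ ≤ log n` -/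
noncomputable def zBFT (n : ℕ) : ℕ := sSup {m : ℕ | (V m)⁻¹ ≤ Real.log n}

/-- the admissible sieving limits: the density of the random primes near `v` is asymptotic to `1 / log v` -/
def Limit (z : ℕ → ℕ) : Prop := Monotone z ∧ Tendsto (fun v => V (z v) * Real.log v) atTop (𝓝 1)

open Classical in
/-- the set of the random primes of a sample -/
def R {Ω : Type} (z : ℕ → ℕ) (c : ℝ) (a : ℕ → Ω → ℕ) (ω : Ω) : Set ℕ :=
  {v | 3 ≤ v ∧ ∀ q ≤ z v, q.Prime → v % q ≠ if (q : ℝ) ≤ Real.log v ^ c then 0 else a q ω}

/-- the `m`-th element of `A` in increasing order, `m ≥ 1` -/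
noncomputable def nthEl (A : Set ℕ) (m : ℕ) : ℕ := Nat.nth (fun u => u ∈ A) (m - 1)

/-- the `x`-th `i`-prime of `A`: `i + 1` applications of `nthEl A` to `x` -/
noncomputable def iPrime (A : Set ℕ) (i x : ℕ) : ℕ := (nthEl A)^[i + 1] x

theorem result :
    (∃ (Ω : Type) (_ : MeasurableSpace Ω) (P : Measure Ω) (a : ℕ → Ω → ℕ), Model P a) ∧ Limit zBFT ∧
    ∀ c : ℝ, 1 < c → ∀ z : ℕ → ℕ, Limit z →
      ∀ (Ω : Type) [MeasurableSpace Ω] (P : Measure Ω) (a : ℕ → Ω → ℕ), Model P a →
        ∀ᵐ ω ∂P, ∀ i j : ℕ, ∃ C : ℕ, ∀ᶠ n : ℕ in atTop, ∃ x y : ℕ, 1 ≤ x ∧ 1 ≤ y ∧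
          iPrime (R z c a ω) i x ≠ iPrime (R z c a ω) j y ∧
          iPrime (R z c a ω) i x + iPrime (R z c a ω) j y = 2 * n ∧ (iPrime (R z c a ω) j y : ℝ) ≤ Real.log n ^ C := by
  classical
  refine ⟨?_, ⟨Pool.Agent.T2H32.BF.z0_mono, Pool.Agent.T2H32.BF.z0_lim⟩, ?_⟩
  · obtain ⟨Ω, i, P, a, h⟩ := Pool.Agent.T2H32.BF.exists_model
    exact ⟨Ω, i, P, a, h.measurable, h.independent, h.uniform⟩
  · intro c hc z hz Ω _ P a hmod
    have h : Pool.Agent.T2H32.BF.Model P a := ⟨hmod.measurable, hmod.independent, hmod.uniform⟩
    have h1 : ∀ i j : ℕ, ∃ C : ℕ, ∀ᵐ ω ∂P, ∀ᶠ n : ℕ in atTop, ∃ u v : ℕ,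
        u ∈ Pool.Agent.H559.IX.It (Pool.Agent.H559.IX.R0 z c (fun q => a q ω)) i ∧
        v ∈ Pool.Agent.H559.IX.It (Pool.Agent.H559.IX.R0 z c (fun q => a q ω)) j ∧ u + v = 2 * n ∧
        (v : ℝ) ≤ Real.log n ^ C := by
      intro i j
      obtain ⟨C, hC⟩ := Pool.Agent.H559.IX.page_778 c hc i j
      exact ⟨C, hC z hz Ω P a h⟩
    choose C hC using h1
    have h2 : ∀ᵐ ω ∂P, ∀ i j : ℕ, ∀ᶠ n : ℕ in atTop, ∃ u v : ℕ,
        u ∈ Pool.Agent.H559.IX.It (Pool.Agent.H559.IX.R0 z c (fun q => a q ω)) i ∧
        v ∈ Pool.Agent.H559.IX.It (Pool.Agent.H559.IX.R0 z c (fun q => a q ω)) j ∧ u + v = 2 * n ∧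
        (v : ℝ) ≤ Real.log n ^ C i j := ae_all_iff.2 fun i => ae_all_iff.2 fun j => hC i j
    filter_upwards [h2] with ω hω i j
    have e : Pool.Agent.H559.IX.R0 z c (fun q => a q ω) = R z c a ω := rfl
    have h0 : 0 ∉ R z c a ω := Pool.Agent.H559.IX.zero_notMem z c (fun q => a q ω)
    rw [e] at hω
    refine ⟨C i j, ?_⟩
    have hlog : ∀ᶠ n : ℕ in atTop, Real.log n ^ C i j < n := by
      have h3 : (fun x : ℝ => Real.log x ^ C i j) =o[atTop] fun x : ℝ => x := by
        have h4 := isLittleO_log_rpow_rpow_atTop (C i j : ℝ) (show (0 : ℝ) < 1 by norm_num)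
        simpa using h4
      have h5 := (h3.comp_tendsto (tendsto_natCast_atTop_atTop (R := ℝ))).bound (show (0 : ℝ) < 1 / 2 by norm_num)
      filter_upwards [h5, eventually_ge_atTop 1] with n h6 h7
      have h8 : (1 : ℝ) ≤ n := by exact_mod_cast h7
      simp only [Function.comp_apply, Real.norm_eq_abs] at h6
      have h9 := le_abs_self (Real.log n ^ C i j)
      rw [abs_of_nonneg (show (0 : ℝ) ≤ n by linarith)] at h6
      linarith
    filter_upwards [hω i j, hlog] with n hn hln
    obtain ⟨u, v, hu, hv, huv, hle⟩ := hn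
    obtain ⟨x, hx, hxu⟩ := Pool.Agent.H559.IX.iter_It _ h0 i u hu
    obtain ⟨y, hy, hyv⟩ := Pool.Agent.H559.IX.iter_It _ h0 j v hv
    have hx' : iPrime (R z c a ω) i x = u := hxu
    have hy' : iPrime (R z c a ω) j y = v := hyv
    have hvn : v < n := by exact_mod_cast hle.trans_lt hln
    refine ⟨x, y, hx, hy, ?_, ?_, ?_⟩
    · rw [hx', hy']
      omega
    · rw [hx', hy']
      exact huv
    · rw [hy']
      exact hle

end Pool.Agent.Results.MP_778b46_nt.IteratedRandomPrimes
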