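import Pool.Agent.H563.AP.Core

/-!
# Subsets with `O(log x)` elements of arbitrary dense sets of primes, for instance of the `a`-primes

Let `ε > 0` and `θ > 0`.  There are `K` and `η > 0` such that EVERY set `A` of primes with at least `y ^ (1 - η)` elements
up to `y` (for all large `y`) has a subset `Q` with at most `K log x` elements up to `x` (for all `x ≥ 2`), such that
for all large `j` all the integers `N` in `(2 ^ j, 2 ^ (j + 1)]`, with at most `2 ^ (θ j)` exceptions, have at least `j`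
representations `N = q + m s` with `q` in `Q`, where all the prime factors of `m` are `< N ^ ε` and `s` has at most two
prime factors, counted with multiplicity, which are `> (N / 2) ^ (1 / 7)`.

The constant `K` does not depend on `A`.  The set of all the `a`-primes, for every `a`, has the assumed density (it has
about `y / (log y) ^ (a + 1)` elements), and so have many subsets of it, given by arbitrary restrictions of the indices.

Method: by the theorem of the library on sparse sets of primes, for all but few `N` of the size `2 ^ j` a positive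
proportion of the elements of `A` up to `2 ^ i` can be used, for all the `i` between `(1 - 1 / E) j` and `j`, for a large
constant `E`.  The elements of `Q` are chosen one after the other, `K` elements for every scale `2 ^ i`, such that an
exponential potential, which is a sum over ALL the numbers `N` at the same time, does not increase; so `N` profits from
all the `K j / E` choices in the scales between `(1 - 1 / E) j` and `j`.
-/

set_option autoImplicit false

namespace Pool.Agent.Results.MP_778b46_nt.LogarithmicSubsets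

open Finset Filter Topology
open scoped Classical

/-- the `x`-th prime, for `x ≥ 1` -/
noncomputable def pr (x : ℕ) : ℕ := Nat.nth Nat.Prime (x - 1)

/-- the `x`-th `i`-prime, for `x ≥ 1`: the `(i + 1)`-fold iterate of `pr` -/
noncomputable def iPrime (i x : ℕ) : ℕ := pr^[i + 1] x

/-- `N = q + m s` with positive integers `m`, `s`, where all prime factors of `m` are `< N ^ ε` and `s` has at most two
prime factors (counted with multiplicity), all of them `> (N / 2) ^ (1 / 7)` -/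
def Rep (ε : ℝ) (N q : ℕ) : Prop :=
  ∃ m s : ℕ, 0 < m ∧ 0 < s ∧ q + m * s = N ∧
    (∀ l : ℕ, l.Prime → l ∣ m → (l : ℝ) < (N : ℝ) ^ ε) ∧
    s.primeFactorsList.length ≤ 2 ∧ ∀ r ∈ s.primeFactors, ((N : ℝ) / 2) ^ (1 / 7 : ℝ) < r

/-- the number of the `q` in `Q` with `N = q + m s` as above -/
noncomputable def hits (ε : ℝ) (Q : Set ℕ) (N : ℕ) : ℕ := {q | q ∈ Q ∧ Rep ε N q}.ncard

lemma rep_of {ε : ℝ} (hε : 0 < ε) {X N q : ℕ} (h1 : X < N) (h2 : N ≤ 2 * X) (hq : q ≤ X)
    (h : Pool.Agent.H563.AP.RX ε X N q) : Rep ε N q := by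
  obtain ⟨hne, m, s, hms, hl, hs2, hr⟩ := h
  have hXN : (X : ℝ) ≤ N := by exact_mod_cast h1.le
  have hNX : (N : ℝ) / 2 ≤ X := by
    have : (N : ℝ) ≤ 2 * X := by exact_mod_cast h2
    linarith
  have hms' : q + m * s = N := by omega
  have hpos : 0 < m * s := by omega
  refine ⟨m, s, Nat.pos_of_mul_pos_right hpos, Nat.pos_of_mul_pos_left hpos, hms', fun l hl1 hl2 => ?_, hs2,
    fun r hr1 => ?_⟩
  · exact (hl l hl1 hl2).trans_le (Real.rpow_le_rpow (by positivity) hXN hε.le)
  · exact (Real.rpow_le_rpow (by positivity) hNX (by norm_num)).trans_lt (hr r hr1)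

lemma hits_ge {ε : ℝ} (hε : 0 < ε) {X N : ℕ} (h1 : X < N) (h2 : N ≤ 2 * X) {Q : Set ℕ} {S : Finset ℕ}
    (hS : (S : Set ℕ) ⊆ Q) (hX : ∀ q ∈ S, q ≤ X) :
    (S.filter (Pool.Agent.H563.AP.RX ε X N)).card ≤ hits ε Q N := by
  unfold hits
  rw [← Set.ncard_coe_finset]
  apply Set.ncard_le_ncard
  · intro q hq
    rw [mem_coe, mem_filter] at hq
    exact ⟨hS hq.1, rep_of hε h1 h2 (hX q hq.1) hq.2⟩
  · apply Set.Finite.subset (Set.finite_Iic N)
    rintro q ⟨_, m, s, _, _, hms, _⟩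
    rw [Set.mem_Iic]
    omega

/-- the `a`-primes are dense enough -/
lemma dense (η : ℝ) (hη : 0 < η) (a : ℕ) : ∀ᶠ y : ℕ in atTop, (y : ℝ) ^ (1 - η) ≤
    {q : ℕ | (∃ u : ℕ, 1 ≤ u ∧ iPrime a u = q) ∧ q ≤ y}.ncard := by
  obtain ⟨κ, hκ, hd⟩ := Pool.Agent.Y886.UT.dens_exp
  have h1 := Pool.Agent.Results.MP_e3f158_nt.APrimePlusAlmostPrime.lower κ η hκ hη hd
  have tN : Tendsto (fun N : ℕ => (N : ℝ)) atTop atTop := tendsto_natCast_atTop_atTop
  have tL : Tendsto (fun N : ℕ => Real.log (N : ℝ)) atTop atTop := Real.tendsto_log_atTop.comp tN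
  have hη' : 0 < min η 1 / 4 / ((a : ℝ) + 1) := by
    have : 0 < min η 1 := lt_min hη one_pos
    positivity
  have h2 := tL.eventually ((Real.isLittleO_log_id_atTop.bound hη').and (eventually_ge_atTop 1))
  filter_upwards [h1, h2] with y h1 h2
  obtain ⟨h3, h4⟩ := h2
  have h5 : ((a : ℝ) + 1) * Real.log (Real.log y) ≤ min η 1 / 4 * Real.log y := by
    rw [Real.norm_of_nonneg (Real.log_nonneg h4)] at h3
    simp only [id] at h3
    rw [Real.norm_of_nonneg (by linarith)] at h3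
    have ha : (0 : ℝ) < (a : ℝ) + 1 := by positivity
    calc ((a : ℝ) + 1) * Real.log (Real.log y) ≤ ((a : ℝ) + 1) * (min η 1 / 4 / ((a : ℝ) + 1) * Real.log y) :=
          mul_le_mul_of_nonneg_left h3 ha.le
      _ = min η 1 / 4 * Real.log y := by
          field_simp
  refine (h1 a h5).2.trans ?_
  rw [← Set.ncard_coe_finset]
  have h6 : ((Pool.Agent.Results.MP_e3f158_nt.APrimePlusAlmostPrime.aPrimes a y : Finset ℕ) : Set ℕ) ⊆
      {q : ℕ | (∃ u : ℕ, 1 ≤ u ∧ iPrime a u = q) ∧ q ≤ y} := by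
    intro q hq
    rw [mem_coe] at hq
    unfold Pool.Agent.Results.MP_e3f158_nt.APrimePlusAlmostPrime.aPrimes at hq
    rw [mem_filter, mem_Icc] at hq
    exact ⟨hq.2, hq.1.2⟩
  exact_mod_cast Set.ncard_le_ncard h6 ((Set.finite_Iic y).subset fun q hq => hq.2)

/-- the set is thin -/
lemma thin {K i₀ : ℕ} (hK : 0 < K) (f : ℕ → ℕ) (hf : ∀ t, 2 ^ (i₀ + t / K) < f t * f t) (x : ℕ) (hx : 2 ≤ x) :
    ({q | q ∈ Set.range f ∧ q ≤ x}.ncard : ℝ) ≤ 5 * K * Real.log x := by
  obtain ⟨J, hJ⟩ : ∃ J, J = Nat.log 2 (x * x) := ⟨_, rfl⟩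
  have hsub : {q | q ∈ Set.range f ∧ q ≤ x} ⊆ (((range (K * (J + 1))).image f : Finset ℕ) : Set ℕ) := by
    rintro q ⟨⟨t, ht⟩, hq⟩
    rw [mem_coe, mem_image]
    refine ⟨t, ?_, ht⟩
    rw [mem_range]
    have h1 := hf t
    rw [ht] at h1
    have h2 : 2 ^ (i₀ + t / K) ≤ x * x := h1.le.trans (Nat.mul_le_mul hq hq)
    have h3 := Nat.le_log_of_pow_le (by norm_num) h2
    rw [← hJ] at h3
    have h4 : t / K ≤ J := by omega
    calc t < K * (t / K + 1) := Nat.lt_mul_div_succ t hK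
      _ ≤ K * (J + 1) := Nat.mul_le_mul_left _ (by omega)
  have h1 := Set.ncard_le_ncard hsub (finite_toSet _)
  rw [Set.ncard_coe_finset] at h1
  have h2 : {q | q ∈ Set.range f ∧ q ≤ x}.ncard ≤ K * (J + 1) := by
    refine h1.trans (card_image_le.trans ?_)
    rw [card_range]
  have hxr : (2 : ℝ) ≤ x := by exact_mod_cast hx
  have hlx : Real.log 2 ≤ Real.log x := Real.log_le_log (by norm_num) hxr
  have hl2 := Real.log_two_gt_d9
  have hJ1 : (J : ℝ) * Real.log 2 ≤ 2 * Real.log x := by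
    have h4 : 2 ^ J ≤ x * x := by
      rw [hJ]
      exact Nat.pow_log_le_self 2 (by positivity)
    have h5 : (2 : ℝ) ^ J ≤ (x : ℝ) * x := by exact_mod_cast h4
    have h6 := Real.log_le_log (by positivity) h5
    rw [Real.log_pow, Real.log_mul (by positivity) (by positivity)] at h6
    linarith
  have hJ0 : (0 : ℝ) ≤ J := by positivity
  have hJ2 : (J : ℝ) + 1 ≤ 5 * Real.log x := by nlinarith
  calc ({q | q ∈ Set.range f ∧ q ≤ x}.ncard : ℝ) ≤ K * ((J : ℝ) + 1) := by exact_mod_cast h2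
    _ ≤ K * (5 * Real.log x) := mul_le_mul_of_nonneg_left hJ2 (by positivity)
    _ = 5 * K * Real.log x := by ring

/-- **Subsets with `O(log x)` elements.**  Every dense set `A` of primes has a subset `Q` with at most `K log x` elements
up to `x`, `K` independent of `A`, such that all `N` in `(2 ^ j, 2 ^ (j + 1)]` but at most `2 ^ (θ j)` are `q + m s` for at
least `j` elements `q` of `Q`; and the set of the `a`-primes is dense in this sense for every `a`. -/
theorem result (ε θ : ℝ) (hε : 0 < ε) (hθ : 0 < θ) : ∃ K η : ℝ, 0 < η ∧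
    (∀ A : Set ℕ, (∀ p ∈ A, p.Prime) →
      (∀ᶠ y : ℕ in atTop, (y : ℝ) ^ (1 - η) ≤ {p | p ∈ A ∧ p ≤ y}.ncard) →
      ∃ Q : Set ℕ, Q ⊆ A ∧ (∀ x : ℕ, 2 ≤ x → ({q | q ∈ Q ∧ q ≤ x}.ncard : ℝ) ≤ K * Real.log x) ∧
        ∀ᶠ j : ℕ in atTop,
          ({N : ℕ | 2 ^ j < N ∧ N ≤ 2 ^ (j + 1) ∧ ¬ j ≤ hits ε Q N}.ncard : ℝ) ≤ (2 : ℝ) ^ (θ * (j : ℝ))) ∧
    ∀ a : ℕ, ∀ᶠ y : ℕ in atTop, (y : ℝ) ^ (1 - η) ≤
      {q : ℕ | (∃ u : ℕ, 1 ≤ u ∧ iPrime a u = q) ∧ q ≤ y}.ncard := by
  obtain ⟨K, η, hK, hη, h⟩ := Pool.Agent.H563.AP.core ε θ hε hθ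
  refine ⟨5 * K, η, hη, fun A hA hdens => ?_, fun a => dense η hη a⟩
  obtain ⟨i₀, f, hf, hev⟩ := h A hA hdens
  refine ⟨Set.range f, ?_, ?_, ?_⟩
  · rintro q ⟨t, rfl⟩
    exact (hf t).1
  · intro x hx
    exact thin hK f (fun t => (hf t).2.1) x hx
  · filter_upwards [hev] with j hj
    obtain ⟨hj0, hj⟩ := hj
    refine le_trans ?_ hj
    rw [← Set.ncard_coe_finset]
    have hsub : {N : ℕ | 2 ^ j < N ∧ N ≤ 2 ^ (j + 1) ∧ ¬ j ≤ hits ε (Set.range f) N} ⊆
        (((Ioc (2 ^ j) (2 ^ (j + 1))).filter (fun N => ¬ j ≤ (((range (K * (j + 1 - i₀))).image f).filter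
          (Pool.Agent.H563.AP.RX ε (2 ^ j) N)).card) : Finset ℕ) : Set ℕ) := by
      rintro N ⟨h1, h2, h3⟩
      rw [mem_coe, mem_filter, mem_Ioc]
      refine ⟨⟨h1, h2⟩, fun h4 => h3 (h4.trans ?_)⟩
      have hpow : (2 : ℕ) ^ (j + 1) = 2 * 2 ^ j := by rw [pow_succ]; ring
      apply hits_ge hε h1 (by rw [← hpow]; exact h2)
      · intro q hq
        rw [mem_coe, mem_image] at hq
        obtain ⟨t, _, ht⟩ := hq
        exact ⟨t, ht⟩
      · intro q hq
        rw [mem_image] at hq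
        obtain ⟨t, ht, rfl⟩ := hq
        rw [mem_range] at ht
        refine (hf t).2.2.trans (Nat.pow_le_pow_right (by norm_num) ?_)
        have h5 : t / K < j + 1 - i₀ := by
          rw [Nat.div_lt_iff_lt_mul hK, mul_comm]
          exact ht
        omega
    exact_mod_cast Set.ncard_le_ncard hsub (finite_toSet _)

end Pool.Agent.Results.MP_778b46_nt.LogarithmicSubsets
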